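import Mathlib

set_option autoImplicit false

namespace Pool.Agent.Results.MP_0386c9_co.Main

/-- An edge of an `r`-partite `r`-graph: it picks, in each part `p`, the vertex `(p, e p)`. -/
abbrev Edge (r : ℕ) := Fin r → ℕ

/-- Two edges share a vertex. -/
def Meets {r : ℕ} (e f : Edge r) : Prop := ∃ p, e p = f p

/-- The cover number of `H` is at most `t`. -/
def TauLe {r : ℕ} (H : Finset (Edge r)) (t : ℕ) : Prop :=
  ∃ C : Finset (Fin r × ℕ), C.card ≤ t ∧ ∀ e ∈ H, ∃ p, (p, e p) ∈ C

/-- `H` has intersecting edge-covers for `k` edges. -/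
def HasIEC {r : ℕ} (H : Finset (Edge r)) (k : ℕ) : Prop :=
  ∃ c : Finset (Edge r) → Edge r,
    (∀ S, S ⊆ H → S.card ≤ k → c S ∈ H ∧ ∀ e ∈ S, Meets (c S) e) ∧
    ∀ S S', S ⊆ H → S' ⊆ H → S.card ≤ k → S'.card ≤ k → Meets (c S) (c S')

/-- The positive `k` that force cover number at most `t`. -/
def Forcing (r t : ℕ) : Set ℕ :=
  {k | 0 < k ∧ ∀ H : Finset (Edge r), HasIEC H k → TauLe H t}

/-- The parameter `kc_r(t)`. -/
noncomputable def kc (r t : ℕ) : ℕ := sInf (Forcing r t)

def uu {r : ℕ} (g : Edge r) : Finset (Fin r) → ℚ := fun J => ∏ p ∈ J, (g p : ℚ)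

def pairing {r : ℕ} (h : Edge r) : (Finset (Fin r) → ℚ) →ₗ[ℚ] ℚ where
  toFun w := ∑ J : Finset (Fin r), w J * ∏ p ∈ Finset.univ \ J, (-(h p : ℚ))
  map_add' a b := by simp [add_mul, Finset.sum_add_distrib]
  map_smul' a b := by simp [Finset.mul_sum, mul_assoc]

lemma pairing_uu {r : ℕ} (g h : Edge r) :
    pairing h (uu g) = ∏ p, ((g p : ℚ) + -(h p : ℚ)) := by
  rw [Finset.prod_add]
  simp [pairing, uu]

lemma pairing_zero {r : ℕ} (g h : Edge r) : pairing h (uu g) = 0 ↔ Meets g h := by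
  rw [pairing_uu, Finset.prod_eq_zero_iff]
  constructor
  · rintro ⟨p, -, hp⟩
    refine ⟨p, ?_⟩
    have : (g p : ℚ) = h p := by linarith
    exact_mod_cast this
  · rintro ⟨p, hp⟩
    exact ⟨p, Finset.mem_univ _, by rw [hp]; ring⟩

lemma meets_symm {r : ℕ} {e f : Edge r} (h : Meets e f) : Meets f e := by
  obtain ⟨p, hp⟩ := h
  exact ⟨p, hp.symm⟩

lemma setpair {r : ℕ} {ι : Type} [Fintype ι] [DecidableEq ι] (e T : ι → Edge r)
    (h1 : ∀ i, ¬ Meets (T i) (e i)) (h2 : ∀ i j, i ≠ j → Meets (T i) (e j))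
    (h3 : ∀ i j, Meets (T i) (T j)) : 2 * Fintype.card ι ≤ 2 ^ r := by
  have hli : LinearIndependent ℚ (Sum.elim (fun i => uu (e i)) (fun i => uu (T i))) := by
    rw [Fintype.linearIndependent_iff]
    intro a ha
    rw [Fintype.sum_sum_type] at ha
    simp only [Sum.elim_inl, Sum.elim_inr] at ha
    have hA : ∀ j, a (Sum.inl j) = 0 := by
      intro j
      have h := congrArg (pairing (T j)) ha
      rw [map_add, map_sum, map_sum, map_zero] at h
      simp only [map_smul, smul_eq_mul] at h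
      rw [Finset.sum_eq_single j, Finset.sum_eq_zero] at h
      · have hne : pairing (T j) (uu (e j)) ≠ 0 := fun h0 =>
          h1 j (meets_symm ((pairing_zero _ _).1 h0))
        rw [add_zero] at h
        exact (mul_eq_zero.1 h).resolve_right hne
      · intro i _
        rw [(pairing_zero _ _).2 (h3 i j), mul_zero]
      · intro i _ hij
        rw [(pairing_zero _ _).2 (meets_symm (h2 j i (Ne.symm hij))), mul_zero]
      · intro hj
        exact absurd (Finset.mem_univ _) hj
    have hB : ∀ j, a (Sum.inr j) = 0 := by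
      intro j
      have h := congrArg (pairing (e j)) ha
      rw [map_add, map_sum, map_sum, map_zero] at h
      simp only [map_smul, smul_eq_mul, hA, zero_mul, Finset.sum_const_zero, zero_add] at h
      rw [Finset.sum_eq_single j] at h
      · have hne : pairing (e j) (uu (T j)) ≠ 0 := fun h0 =>
          h1 j ((pairing_zero _ _).1 h0)
        exact (mul_eq_zero.1 h).resolve_right hne
      · intro i _ hij
        rw [(pairing_zero _ _).2 (h2 i j hij), mul_zero]
      · intro hj
        exact absurd (Finset.mem_univ _) hj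
    rintro (i | i)
    · exact hA i
    · exact hB i
  have := hli.fintype_card_le_finrank
  rw [Module.finrank_fintype_fun_eq_card, Fintype.card_sum, Fintype.card_finset,
    Fintype.card_fin] at this
  omega

lemma upper (r : ℕ) (hr : 1 ≤ r) : 2 ^ (r - 1) ∈ Forcing r r := by
  classical
  refine ⟨by positivity, ?_⟩
  rintro H ⟨c, hc1, hc2⟩
  set k := 2 ^ (r - 1) with hk
  let F : Set (Edge r) := {T | ∃ S, S ⊆ H ∧ S.card ≤ k ∧ c S = T}
  have hF : ∀ T ∈ F, ∀ T' ∈ F, Meets T T' := by
    rintro T ⟨S, h1, h2, rfl⟩ T' ⟨S', h1', h2', rfl⟩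
    exact hc2 S S' h1 h1' h2 h2'
  have key : ∃ T ∈ F, ∀ e ∈ H, Meets T e := by
    by_contra hno
    have hex : ∃ n, ∃ S : Finset (Edge r), S ⊆ H ∧ S.card = n ∧ ¬ ∃ T ∈ F, ∀ e ∈ S, Meets T e :=
      ⟨_, H, le_rfl, rfl, hno⟩
    obtain ⟨S, hSH, hSn, hS⟩ := Nat.find_spec hex
    have hmin : ∀ e : S, ∃ T ∈ F, ∀ f ∈ S.erase e, Meets T f := by
      intro e
      by_contra hne
      have := Nat.find_min' hex ⟨S.erase e, (Finset.erase_subset _ _).trans hSH, rfl, hne⟩
      have h2 := Finset.card_erase_lt_of_mem e.2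
      omega
    choose T hTF hT using hmin
    have hsp := setpair (fun i : S => (i : Edge r)) T
      (by
        intro i hi
        apply hS
        refine ⟨T i, hTF i, fun f hf => ?_⟩
        by_cases hfi : f = i
        · rw [hfi]; exact hi
        · exact hT i f (Finset.mem_erase.2 ⟨hfi, hf⟩))
      (by
        intro i j hij
        exact hT i j (Finset.mem_erase.2 ⟨fun h => hij (Subtype.ext h).symm, j.2⟩))
      (fun i j => hF _ (hTF i) _ (hTF j))
    rw [Fintype.card_coe] at hsp
    have hpow : 2 ^ r = 2 * k := by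
      rw [hk, ← pow_succ']; congr 1; omega
    have hle : S.card ≤ k := by omega
    exact hS ⟨c S, ⟨S, hSH, hle, rfl⟩, (hc1 S hSH hle).2⟩
  obtain ⟨T, -, hT⟩ := key
  refine ⟨Finset.univ.image (fun p => (p, T p)), ?_, ?_⟩
  · exact Finset.card_image_le.trans (by simp)
  · intro e he
    obtain ⟨p, hp⟩ := hT e he
    exact ⟨p, Finset.mem_image.2 ⟨p, Finset.mem_univ _, by rw [hp]⟩⟩

/-- Edge with label 0 on `A`, label `i + 2` on `Z \ A`, label 1 elsewhere. -/
def ed {r : ℕ} (A Z : Finset (Fin r)) (i : ℕ) : Edge r :=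
  fun p => if p ∈ A then 0 else if p ∈ Z then i + 2 else 1

lemma miss {r : ℕ} (A Z y : Finset (Fin r)) (i : ℕ) (h : ¬ Meets (ed yᶜ ∅ 0) (ed A Z i)) :
    A ⊆ y ∧ y ⊆ Z ∪ A := by
  constructor
  · intro p hp
    by_contra hy
    exact h ⟨p, by simp [ed, hp, hy]⟩
  · intro p hp
    by_contra hy
    rw [Finset.mem_union, not_or] at hy
    exact h ⟨p, by simp [ed, hp, hy.1, hy.2]⟩

lemma lower (r : ℕ) (hr : 1 ≤ r) (P : Finset (Finset (Fin r))) (hP : ∀ y ∈ P, yᶜ ∉ P)
    (hZ : ∀ Z0 Z1 : Finset (Fin r), Z0.card + Z1.card ≤ r → ∃ A : Finset (Fin r),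
      Disjoint A Z0 ∧ (P.filter (fun y => A ⊆ y ∧ y ⊆ Z1 ∪ A)).card ≤ 1) :
    P.card ≤ kc r r := by
  classical
  have hne : (Forcing r r).Nonempty := ⟨_, upper r hr⟩
  have hmem := Nat.sInf_mem hne
  by_contra hlt
  push Not at hlt
  change sInf (Forcing r r) < P.card at hlt
  set k := sInf (Forcing r r)
  let G : Finset (Finset (Fin r) × Finset (Fin r) × Fin (r + 1)) :=
    Finset.univ.filter (fun g => (P.filter (fun y => g.1 ⊆ y ∧ y ⊆ g.2.1 ∪ g.1)).card ≤ 1)
  let H : Finset (Edge r) := G.image (fun g => ed g.1 g.2.1 g.2.2)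
  have hTT : ∀ y ∈ P, ∀ y' ∈ P, Meets (ed yᶜ ∅ 0) (ed y'ᶜ ∅ 0) := by
    intro y hy y' hy'
    by_contra hm
    have h := miss _ _ _ _ hm
    rw [Finset.empty_union] at h
    have : y = y'ᶜ := Finset.Subset.antisymm h.2 h.1
    exact hP y' hy' (this ▸ hy)
  have hTH : ∀ y ∈ P, ed yᶜ ∅ 0 ∈ H := by
    intro y hy
    refine Finset.mem_image.2 ⟨(yᶜ, ∅, 0), ?_, rfl⟩
    refine Finset.mem_filter.2 ⟨Finset.mem_univ _, ?_⟩
    refine Finset.card_le_one.2 ?_
    intro a ha b hb
    have ha' := (Finset.mem_filter.1 ha).2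
    have hb' := (Finset.mem_filter.1 hb).2
    simp only [Finset.empty_union] at ha' hb'
    rw [Finset.Subset.antisymm ha'.2 ha'.1, Finset.Subset.antisymm hb'.2 hb'.1]
  have hcov : ∀ S : Finset (Edge r), ∃ y : Finset (Fin r), S ⊆ H → S.card ≤ k →
      y ∈ P ∧ ∀ e ∈ S, Meets (ed yᶜ ∅ 0) e := by
    intro S
    by_cases hS : S ⊆ H ∧ S.card ≤ k
    · by_contra hno
      push Not at hno
      have hsub : P ⊆ S.biUnion (fun e => P.filter (fun y => ¬ Meets (ed yᶜ ∅ 0) e)) := by
        intro y hy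
        obtain ⟨e, he, hm⟩ := (hno y).2.2 hy
        exact Finset.mem_biUnion.2 ⟨e, he, Finset.mem_filter.2 ⟨hy, hm⟩⟩
      have h1 := Finset.card_le_card hsub
      have h2 : (S.biUnion (fun e => P.filter (fun y => ¬ Meets (ed yᶜ ∅ 0) e))).card
          ≤ S.card * 1 := by
        apply Finset.card_biUnion_le_card_mul
        intro e he
        obtain ⟨g, hg, rfl⟩ := Finset.mem_image.1 (hS.1 he)
        refine le_trans (Finset.card_le_card ?_) (Finset.mem_filter.1 hg).2
        intro y hy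
        have hy' := Finset.mem_filter.1 hy
        exact Finset.mem_filter.2 ⟨hy'.1, miss _ _ _ _ hy'.2⟩
      have := hS.2
      omega
    · exact ⟨∅, fun h1 h2 => absurd ⟨h1, h2⟩ hS⟩
  choose f hf using hcov
  have hI : HasIEC H k := by
    refine ⟨fun S => ed (f S)ᶜ ∅ 0, ?_, ?_⟩
    · intro S h1 h2
      exact ⟨hTH _ (hf S h1 h2).1, (hf S h1 h2).2⟩
    · intro S S' h1 h1' h2 h2'
      exact hTT _ (hf S h1 h2).1 _ (hf S' h1' h2').1
  obtain ⟨C, hC, hCH⟩ := hmem.2 H hI
  let Z0 : Finset (Fin r) := Finset.univ.filter (fun p => (p, 0) ∈ C)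
  let Z1 : Finset (Fin r) := Finset.univ.filter (fun p => (p, 1) ∈ C)
  have hcard : Z0.card + Z1.card ≤ r := by
    have h0 : (Z0.image (fun p => (p, 0))).card = Z0.card :=
      Finset.card_image_of_injective _ (fun a b h => (Prod.ext_iff.1 h).1)
    have h1 : (Z1.image (fun p => (p, 1))).card = Z1.card :=
      Finset.card_image_of_injective _ (fun a b h => (Prod.ext_iff.1 h).1)
    have hd : Disjoint (Z0.image (fun p => (p, 0))) (Z1.image (fun p => (p, 1))) := by
      rw [Finset.disjoint_left]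
      intro x hx hx'
      obtain ⟨p, -, rfl⟩ := Finset.mem_image.1 hx
      obtain ⟨q, -, hq⟩ := Finset.mem_image.1 hx'
      have := (Prod.ext_iff.1 hq).2
      simp at this
    have hs : Z0.image (fun p => (p, 0)) ∪ Z1.image (fun p => (p, 1)) ⊆ C := by
      intro x hx
      rcases Finset.mem_union.1 hx with hx | hx
      · obtain ⟨p, hp, rfl⟩ := Finset.mem_image.1 hx
        exact (Finset.mem_filter.1 hp).2
      · obtain ⟨p, hp, rfl⟩ := Finset.mem_image.1 hx
        exact (Finset.mem_filter.1 hp).2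
    have := Finset.card_le_card hs
    rw [Finset.card_union_of_disjoint hd, h0, h1] at this
    omega
  obtain ⟨A, hA, hgood⟩ := hZ Z0 Z1 hcard
  have hi : ∀ i : Fin (r + 1), ∃ p, (p, (i : ℕ) + 2) ∈ C := by
    intro i
    have hin : ed A Z1 i ∈ H :=
      Finset.mem_image.2 ⟨(A, Z1, i), Finset.mem_filter.2 ⟨Finset.mem_univ _, hgood⟩, rfl⟩
    obtain ⟨p, hp⟩ := hCH _ hin
    refine ⟨p, ?_⟩
    by_cases h1 : p ∈ A
    · exfalso
      simp only [ed, h1, if_true] at hp
      exact Finset.disjoint_left.1 hA h1 (Finset.mem_filter.2 ⟨Finset.mem_univ _, hp⟩)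
    · by_cases h2 : p ∈ Z1
      · simpa [ed, h1, h2] using hp
      · exfalso
        simp only [ed, h1, h2, if_false] at hp
        exact h2 (Finset.mem_filter.2 ⟨Finset.mem_univ _, hp⟩)
  choose q hq using hi
  have hinj : Function.Injective (fun i : Fin (r + 1) => (q i, (i : ℕ) + 2)) := by
    intro a b h
    have := (Prod.ext_iff.1 h).2
    simp only at this
    exact Fin.ext (by omega)
  have hs : Finset.univ.image (fun i : Fin (r + 1) => (q i, (i : ℕ) + 2)) ⊆ C := by
    intro x hx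
    obtain ⟨i, -, rfl⟩ := Finset.mem_image.1 hx
    exact hq i
  have := Finset.card_le_card hs
  rw [Finset.card_image_of_injective _ hinj, Finset.card_univ, Fintype.card_fin] at this
  omega

lemma layers (r j : ℕ) (hr : 1 ≤ r) (hj : j + 1 ≤ r) (P : Finset (Finset (Fin r)))
    (hP : ∀ y ∈ P, yᶜ ∉ P) (hl : ∀ y ∈ P, j ≤ y.card ∧ y.card ≤ j + 1) : P.card ≤ kc r r := by
  classical
  refine lower r hr P hP ?_
  intro Z0 Z1 hZ
  by_cases h : Z1.card ≤ j
  · refine ⟨∅, Finset.disjoint_empty_left _, Finset.card_le_one.2 ?_⟩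
    intro a ha b hb
    have ha' := Finset.mem_filter.1 ha
    have hb' := Finset.mem_filter.1 hb
    simp only [Finset.union_empty] at ha' hb'
    have e1 := Finset.eq_of_subset_of_card_le ha'.2.2 (h.trans (hl a ha'.1).1)
    have e2 := Finset.eq_of_subset_of_card_le hb'.2.2 (h.trans (hl b hb'.1).1)
    rw [e1, e2]
  · have hc : j + 1 ≤ Z0ᶜ.card := by
      rw [Finset.card_compl, Fintype.card_fin]; omega
    obtain ⟨A, hA, hAc⟩ := Finset.exists_subset_card_eq hc
    refine ⟨A, ?_, Finset.card_le_one.2 ?_⟩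
    · exact Finset.disjoint_left.2 (fun p hp => Finset.mem_compl.1 (hA hp))
    · intro a ha b hb
      have ha' := Finset.mem_filter.1 ha
      have hb' := Finset.mem_filter.1 hb
      have e1 := Finset.eq_of_subset_of_card_le ha'.2.1 (hAc ▸ (hl a ha'.1).2)
      have e2 := Finset.eq_of_subset_of_card_le hb'.2.1 (hAc ▸ (hl b hb'.1).2)
      rw [← e1, ← e2]

lemma lower_odd (m : ℕ) (hm : 1 ≤ m) :
    (2 * m + 2).choose (m + 2) ≤ kc (2 * m + 1) (2 * m + 1) := by
  classical
  have h := layers (2 * m + 1) (m + 1) (by omega) (by omega)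
    (Finset.univ.powersetCard (m + 1) ∪ Finset.univ.powersetCard (m + 2))
    (by
      intro y hy hy'
      simp only [Finset.mem_union, Finset.mem_powersetCard, Finset.card_compl,
        Fintype.card_fin] at hy hy'
      omega)
    (by
      intro y hy
      simp only [Finset.mem_union, Finset.mem_powersetCard] at hy
      omega)
  rw [Finset.card_union_of_disjoint, Finset.card_powersetCard, Finset.card_powersetCard,
    Finset.card_univ, Fintype.card_fin] at h
  · rw [Nat.choose_succ_succ]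
    exact h
  · rw [Finset.disjoint_left]
    intro y hy hy'
    simp only [Finset.mem_powersetCard] at hy hy'
    omega

lemma lower_even (m : ℕ) :
    (2 * m + 1).choose m + (2 * m + 2).choose (m + 2) ≤ kc (2 * m + 2) (2 * m + 2) := by
  classical
  have hcardI : ∀ y ∈ ((Finset.univ.erase (0 : Fin (2 * m + 2))).powersetCard m).image
      (fun s => insert (0 : Fin (2 * m + 2)) s), y.card = m + 1 ∧ (0 : Fin (2 * m + 2)) ∈ y := by
    intro y hy
    obtain ⟨s, hs, rfl⟩ := Finset.mem_image.1 hy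
    have hs' := Finset.mem_powersetCard.1 hs
    have h0 : (0 : Fin (2 * m + 2)) ∉ s := fun h => by simpa using hs'.1 h
    exact ⟨by rw [Finset.card_insert_of_notMem h0, hs'.2], Finset.mem_insert_self _ _⟩
  have h := layers (2 * m + 2) (m + 1) (by omega) (by omega)
    (((Finset.univ.erase (0 : Fin (2 * m + 2))).powersetCard m).image
      (fun s => insert (0 : Fin (2 * m + 2)) s) ∪ Finset.univ.powersetCard (m + 2))
    (by
      intro y hy hy'
      have hc : yᶜ.card = 2 * m + 2 - y.card := by rw [Finset.card_compl, Fintype.card_fin]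
      rcases Finset.mem_union.1 hy with hy | hy <;> rcases Finset.mem_union.1 hy' with hy' | hy'
      · exact Finset.mem_compl.1 (hcardI _ hy').2 (hcardI _ hy).2
      · have := (hcardI _ hy).1
        have := (Finset.mem_powersetCard.1 hy').2
        omega
      · have := (hcardI _ hy').1
        have := (Finset.mem_powersetCard.1 hy).2
        omega
      · have := (Finset.mem_powersetCard.1 hy).2
        have := (Finset.mem_powersetCard.1 hy').2
        omega)
    (by
      intro y hy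
      rcases Finset.mem_union.1 hy with hy | hy
      · have := (hcardI _ hy).1
        omega
      · have := (Finset.mem_powersetCard.1 hy).2
        omega)
  rw [Finset.card_union_of_disjoint, Finset.card_image_of_injOn, Finset.card_powersetCard,
    Finset.card_powersetCard, Finset.card_erase_of_mem (Finset.mem_univ _),
    Finset.card_univ, Fintype.card_fin] at h
  · exact h
  · intro s hs t ht hst
    have hs' := Finset.mem_powersetCard.1 (Finset.mem_coe.1 hs)
    have ht' := Finset.mem_powersetCard.1 (Finset.mem_coe.1 ht)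
    have h0 : (0 : Fin (2 * m + 2)) ∉ s := fun h => by simpa using hs'.1 h
    have h1 : (0 : Fin (2 * m + 2)) ∉ t := fun h => by simpa using ht'.1 h
    rw [← Finset.erase_insert h0, ← Finset.erase_insert h1]
    simp only at hst
    rw [hst]
  · rw [Finset.disjoint_left]
    intro y hy hy'
    have := (hcardI _ hy).1
    have := (Finset.mem_powersetCard.1 hy').2
    omega

def P4 : Finset (Finset (Fin 4)) :=
  {{0}, {1}, {2}, {3}, {0, 3}, {1, 3}, {2, 3}, {0, 1, 2, 3}}

def P5 : Finset (Finset (Fin 5)) :=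
  {{0}, {1}, {2}, {3}, {4}, {0, 1}, {0, 2}, {0, 3}, {0, 4}, {1, 2}, {1, 3}, {1, 4}, {2, 3},
    {2, 4}, {3, 4}, {0, 1, 2, 3, 4}}

lemma lower4 : 8 ≤ kc 4 4 := by
  have h := lower 4 (by omega) P4 (by decide +kernel) (by decide +kernel)
  have hc : P4.card = 8 := by decide +kernel
  omega

lemma lower5 : 16 ≤ kc 5 5 := by
  have h := lower 5 (by omega) P5 (by decide +kernel) (by decide +kernel)
  have hc : P5.card = 16 := by decide +kernel
  omega

theorem result :
    (∀ r : ℕ, 2 ≤ r → 2 ^ (r - 1) ∈ Forcing r r ∧ kc r r ≤ 2 ^ (r - 1)) ∧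
    (∀ r : ℕ, 2 ≤ r → r ≤ 5 → kc r r = 2 ^ (r - 1)) ∧
    (∀ m : ℕ, 1 ≤ m → (2 * m + 2).choose (m + 2) ≤ kc (2 * m + 1) (2 * m + 1)) ∧
    (∀ m : ℕ, (2 * m + 1).choose m + (2 * m + 2).choose (m + 2)
      ≤ kc (2 * m + 2) (2 * m + 2)) := by
  have hu : ∀ r : ℕ, 2 ≤ r → kc r r ≤ 2 ^ (r - 1) := fun r hr =>
    Nat.sInf_le (upper r (by omega))
  refine ⟨fun r hr => ⟨upper r (by omega), hu r hr⟩, ?_, lower_odd, lower_even⟩
  intro r h2 h5
  refine le_antisymm (hu r h2) ?_
  interval_cases r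
  · exact lower_even 0
  · exact lower_odd 1 le_rfl
  · exact lower4
  · exact lower5

end Pool.Agent.Results.MP_0386c9_co.Main
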